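import Pool.Agent.X55.HZ.Stm

/-! Part CNT of project HZ (helper55): the edge counts of a walk. -/

set_option autoImplicit false

namespace Pool.Agent.X148.HZ

open Finset Pool.Agent.X55.HZ

theorem t_CNT : Pool.Agent.X55.HZ.S_CNT := by
  intro n m E α u v w
  induction w with
  | nil x =>
    refine ⟨fun _ _ _ => 0, fun k a b h => absurd rfl h, fun k => by simp, fun z => by simp⟩
  | @cons k x y z α h w ih =>
    obtain ⟨f, h1, h2, h3⟩ := ih
    refine ⟨fun k' a b => f k' a b + (if k' = k then (if a = x then (if b = y then 1 else 0) else 0)
      else 0), ?_, ?_, ?_⟩
    · intro k' a b hne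
      by_cases hk : k' = k
      · by_cases ha : a = x
        · by_cases hb : b = y
          · rw [hk, ha, hb]; exact h
          · apply h1; simpa [hk, ha, hb] using hne
        · apply h1; simpa [hk, ha] using hne
      · apply h1; simpa [hk] using hne
    · intro k'
      simp only [Finset.sum_add_distrib, h2, Pi.add_apply]
      congr 1
      by_cases hk : k' = k
      · subst hk; simp
      · simp [hk]
    · intro t
      have h3t := h3 t
      have e1 : (∑ k' : Fin m, ∑ b : Fin n, (f k' t b + (if k' = k then (if t = x then
          (if b = y then 1 else 0) else 0) else 0)))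
          = (∑ k', ∑ b, f k' t b) + (if t = x then 1 else 0) := by
        simp only [Finset.sum_add_distrib]
        congr 1
        rw [Finset.sum_eq_single k (fun b _ hb => by simp [hb]) (by simp)]
        by_cases ht : t = x <;> simp [ht]
      have e2 : (∑ k' : Fin m, ∑ a : Fin n, (f k' a t + (if k' = k then (if a = x then
          (if t = y then 1 else 0) else 0) else 0)))
          = (∑ k', ∑ a, f k' a t) + (if t = y then 1 else 0) := by
        simp only [Finset.sum_add_distrib]
        congr 1
        rw [Finset.sum_eq_single k (fun b _ hb => by simp [hb]) (by simp)]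
        by_cases ht : t = y <;> simp [ht]
      show (∑ k' : Fin m, ∑ b : Fin n, (f k' t b + (if k' = k then (if t = x then
          (if b = y then 1 else 0) else 0) else 0))) + (if t = z then 1 else 0) =
        (∑ k' : Fin m, ∑ a : Fin n, (f k' a t + (if k' = k then (if a = x then
          (if t = y then 1 else 0) else 0) else 0))) + (if t = x then 1 else 0)
      rw [e1, e2]
      omega

end Pool.Agent.X148.HZ
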